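import Mathlib
import Pool.Agent.H20.Bur

set_option autoImplicit false

namespace Pool.Agent.Results.MP_836feb_al.NotFree

open Pool.Agent.H20.BurDef

universe u v

theorem result (N : ℕ) : ∃ n : ℕ, N ≤ n ∧ Odd n ∧ ∀ (α : Type u) [Nonempty α],
    ∃ H : Subgroup (Burn α n), IsRetract H ∧ ∀ β : Type v, IsEmpty (H ≃* Burn β n) := by
  refine ⟨3 * 5 ^ (N + 1), ?_, (by decide : Odd 3).mul ((by decide : Odd 5).pow), fun α _ =>
    Pool.Agent.H20.Bur.main 3 (5 ^ (N + 1)) (by norm_num) (Nat.one_lt_pow (by omega) (by norm_num))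
      (Nat.Coprime.pow_right _ (by norm_num)) α⟩
  have := Nat.lt_pow_self (n := N + 1) (show 1 < 5 by norm_num)
  omega

end Pool.Agent.Results.MP_836feb_al.NotFree
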